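import Pool.Agent.TH299.FB.Main

/-!
# Assembly
-/

set_option autoImplicit false

namespace Pool.Agent.TH299.FB

open Set Filter Topology MeasureTheory Metric
open scoped Laplacian

lemma w_cont : ContinuousOn w (ball 0 2) := by
  refine cont_glue (C := 2) (fun z hz h7 => (hasFDerivAt_wf hz h7).continuousAt)
    (fun z h1 h2 h3 => wf_curve h1 h2 h3) fun z hz h2 => ?_
  have := norm_wf_le hz (by linarith : ‖z‖ < 7)
  nlinarith [norm_nonneg z]

lemma u_cont : ContinuousOn u (ball 0 2) :=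
  cont_glue (C := 100) (fun _ hz h7 => (hasFDerivAt_Uf hz h7).continuousAt)
    (fun _ h1 h2 h3 => Uf_curve h1 h2 h3) fun _ hz h2 => norm_Uf_le hz h2

lemma w_diff {z : ℂ} (hz : z ∈ ball (0 : ℂ) 2) (hD : z ∈ D) :
    HasFDerivAt w (dw z) z ∧ ‖dw z‖ ≤ 5 := by
  have h2 : ‖z‖ < 2 := by simpa using hz
  have hs := slit_of_mem hD
  refine ⟨?_, norm_dw_le (Complex.slitPlane_ne_zero hs) h2⟩
  refine (hasFDerivAt_wf hs (by linarith)).congr_of_eventuallyEq ?_
  filter_upwards [ev_mem hD] with y hy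
  exact indicator_of_mem hy _

lemma w_lip : ∀ x ∈ ball (0 : ℂ) 2, ∀ y ∈ ball (0 : ℂ) 2, ‖w x - w y‖ ≤ 5 * ‖x - y‖ :=
  glue_lip (convex_ball _ _) isOpen_D (by norm_num) w_cont
    (fun z _ hD => indicator_of_notMem hD _) fun z hz hD => w_diff hz hD

lemma u_diff : ∀ z ∈ ball (0 : ℂ) 2, HasFDerivAt u (T (w z)) z := by
  refine glue_diff isOpen_ball (convex_ball _ _) isOpen_D (by norm_num)
    (fun z _ hD => indicator_of_notMem hD _) w_lip u_cont
    (fun z _ hD => indicator_of_notMem hD _) fun z hz hD => ?_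
  have h2 : ‖z‖ < 2 := by simpa using hz
  have h1 := hasFDerivAt_Uf (slit_of_mem hD) (by linarith)
  have e : w z = wf z := indicator_of_mem hD _
  rw [e]
  refine h1.congr_of_eventuallyEq ?_
  filter_upwards [ev_mem hD] with y hy
  exact indicator_of_mem hy _

lemma fderiv_u {z : ℂ} (hz : z ∈ ball (0 : ℂ) 2) : fderiv ℝ u z = T (w z) := (u_diff z hz).fderiv

lemma fderiv_u_lip : LipschitzOnWith 5 (fderiv ℝ u) (ball 0 2) := by
  refine LipschitzOnWith.of_dist_le_mul fun x hx y hy => ?_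
  rw [fderiv_u hx, fderiv_u hy, dist_eq_norm, dist_eq_norm, ← map_sub]
  exact (norm_T_le _).trans (w_lip x hx y hy)

lemma lap_in {z : ℂ} (hz : z ∈ ball (0 : ℂ) 2) (hD : z ∈ D) : (Δ u) z = z.re := by
  rw [InnerProductSpace.laplacian_eq_iteratedFDeriv_complexPlane]
  simp only [iteratedFDeriv_two_apply]
  have h1 : HasFDerivAt (fderiv ℝ u) (T.comp (dw z)) z := by
    have h2 : HasFDerivAt (fun y => T (w y)) (T.comp (dw z)) z :=
      T.hasFDerivAt.comp z (w_diff hz hD).1
    refine h2.congr_of_eventuallyEq ?_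
    filter_upwards [isOpen_ball.mem_nhds hz] with y hy
    exact fderiv_u hy
  rw [h1.fderiv]
  simp only [Matrix.cons_val_zero, Matrix.cons_val_one, ContinuousLinearMap.comp_apply, T_apply,
    dw_apply]
  simp

lemma lap_out {z : ℂ} (hD : z ∉ closure D) : (Δ u) z = 0 := by
  have h1 : u =ᶠ[𝓝 z] fun _ => (0 : ℝ) := by
    filter_upwards [isClosed_closure.isOpen_compl.mem_nhds hD] with y hy
    exact indicator_of_notMem (fun h => hy (subset_closure h)) _
  have h2 := InnerProductSpace.laplacian_congr_nhds h1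
  rw [h2.eq_of_nhds]
  simp [InnerProductSpace.laplacian_const]

lemma frontier_null : volume (frontier D) = 0 := by
  rw [frontier_D]
  have hmp : MeasurePreserving (fun z : ℂ => (z.im, z.re)) volume (volume.prod volume) :=
    (Measure.measurePreserving_swap (μ := (volume : Measure ℝ)) (ν := (volume : Measure ℝ))).comp
      Complex.volume_preserving_equiv_real_prod
  have hms : MeasurableSet {q : ℝ × ℝ | q.2 = g q.1} :=
    (isClosed_eq continuous_snd (g_continuous.comp continuous_fst)).measurableSet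
  have e : {z : ℂ | z.re = g z.im} = (fun z : ℂ => (z.im, z.re)) ⁻¹' {q : ℝ × ℝ | q.2 = g q.1} := rfl
  rw [e, hmp.measure_preimage hms.nullMeasurableSet, Measure.measure_prod_null hms]
  refine Eventually.of_forall fun y => ?_
  have : Prod.mk y ⁻¹' {q : ℝ × ℝ | q.2 = g q.1} = {g y} := by
    ext x; simp
  show volume (Prod.mk y ⁻¹' {q : ℝ × ℝ | q.2 = g q.1}) = 0
  rw [this]
  simp

lemma isConnected_D : IsConnected D := by
  have h1 : IsConnected {z : ℂ | 0 < z.re} := by
    refine Convex.isConnected ?_ ⟨1, by simp⟩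
    have : {z : ℂ | 0 < z.re} = Complex.reLm ⁻¹' (Ioi 0) := by ext v; simp
    rw [this]
    exact (convex_Ioi (0 : ℝ)).linear_preimage Complex.reLm
  have h2 : D = (fun z : ℂ => z + (g z.im : ℂ)) '' {z : ℂ | 0 < z.re} := by
    ext z
    constructor
    · intro hz
      refine ⟨z - (g z.im : ℂ), ?_, ?_⟩
      · show 0 < (z - (g z.im : ℂ)).re
        rw [Complex.sub_re, Complex.ofReal_re]
        have : g z.im < z.re := hz
        linarith
      · simp
    · rintro ⟨y, hy, rfl⟩
      show g (y + (g y.im : ℂ)).im < (y + (g y.im : ℂ)).re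
      have : 0 < y.re := hy
      simp
      exact this
  rw [h2]
  refine h1.image _ (Continuous.continuousOn ?_)
  exact continuous_id.add (Complex.continuous_ofReal.comp (g_continuous.comp Complex.continuous_im))

/-! ### The boundary is not `C^{1,α}` -/

lemma curve_point {t : ℝ} (ht : 2 ≤ t) (h3 : t * Real.exp (4 - t) < 3) :
    g (t * Real.exp (4 - t)) = Real.pi / 2 * Real.exp (4 - t) := by
  have hpos : 0 < t * Real.exp (4 - t) := by have := Real.exp_pos (4 - t); positivity
  have h1 : av (t * Real.exp (4 - t)) = -t := by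
    refine av_unique hpos (by linarith) (by linarith) ?_
    rw [neg_neg, Real.log_mul (by linarith) (Real.exp_pos _).ne', Real.log_exp]
    ring
  rw [g_eq' (by rw [abs_of_pos hpos]; exact h3.le), abs_of_pos hpos, G1_eq_exp hpos (by linarith), h1]
  ring_nf

theorem core {ρ : ℝ} (hρ : 0 < ρ) {c : ℂ} (hc : ‖c‖ = 1) {φ : ℝ → ℝ}
    (hφ : ∀ z ∈ ball (0 : ℂ) ρ, z ∈ frontier D ↔ (c * z).im = φ (c * z).re)
    {m C α δ : ℝ} (hα : 0 < α) (hδ : 0 < δ)
    (hb : ∀ s : ℝ, |s| < δ → |φ s - m * s| ≤ C * |s| ^ (1 + α)) : False := by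
  have hC : 0 ≤ |C| := abs_nonneg _
  set A : ℝ := c.im - m * c.re with hA
  set B : ℝ := c.re + m * c.im with hB
  have hAB : 1 ≤ |A| + |B| := by
    have h1 : c.re ^ 2 + c.im ^ 2 = 1 := by
      have := Complex.sq_norm c
      rw [hc, Complex.normSq_apply] at this
      linarith
    have h2 : A ^ 2 + B ^ 2 = 1 + m ^ 2 := by
      rw [hA, hB]; linear_combination (1 + m ^ 2) * h1
    have h3 : (|A| + |B|) ^ 2 ≥ 1 := by
      have := mul_nonneg (abs_nonneg A) (abs_nonneg B)
      nlinarith [sq_abs A, sq_abs B, sq_nonneg m]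
    nlinarith [abs_nonneg A, abs_nonneg B]
  -- the limits
  have l1 : Tendsto (fun t : ℝ => t * Real.exp (4 - t)) atTop (𝓝 0) := by
    have h := tendsto_rpow_mul_exp_neg_mul_atTop_nhds_zero 1 1 one_pos
    have h2 := h.const_mul (Real.exp 4)
    rw [mul_zero] at h2
    refine h2.congr fun t => ?_
    rw [Real.rpow_one, Real.exp_sub, neg_mul, one_mul, Real.exp_neg]
    field_simp
  have l2 : Tendsto (fun t : ℝ => (2 * |C| * 2 ^ (1 + α) * Real.exp (4 * α)) *
      (t ^ (1 + α) * Real.exp (-α * t))) atTop (𝓝 0) := by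
    have h := tendsto_rpow_mul_exp_neg_mul_atTop_nhds_zero (1 + α) α hα
    have h2 := h.const_mul (2 * |C| * 2 ^ (1 + α) * Real.exp (4 * α))
    rwa [mul_zero] at h2
  have e1 : ∀ᶠ t : ℝ in atTop, t * Real.exp (4 - t) < min 3 (min (ρ / 2) (δ / 2)) :=
    l1.eventually (Iio_mem_nhds (by positivity))
  have e2 : ∀ᶠ t : ℝ in atTop, (2 * |C| * 2 ^ (1 + α) * Real.exp (4 * α)) *
      (t ^ (1 + α) * Real.exp (-α * t)) < 1 := l2.eventually (Iio_mem_nhds one_pos)
  obtain ⟨t, ht1, ht2, ht3⟩ := (e1.and (e2.and (eventually_ge_atTop (2 : ℝ)))).exists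
  set X : ℝ := Real.pi / 2 * Real.exp (4 - t) with hX
  set Y : ℝ := t * Real.exp (4 - t) with hY
  have hexp := Real.exp_pos (4 - t)
  have hpi := Real.pi_pos
  have hpi4 := Real.pi_lt_four
  have hX0 : 0 < X := by positivity
  have hY0 : 0 < Y := by positivity
  have hXY : X ≤ Y := by rw [hX, hY]; gcongr; linarith
  have hY3 : Y < 3 := ht1.trans_le (min_le_left _ _)
  have hYρ : Y < ρ / 2 := ht1.trans_le ((min_le_right _ _).trans (min_le_left _ _))
  have hYδ : Y < δ / 2 := ht1.trans_le ((min_le_right _ _).trans (min_le_right _ _))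
  have hg : g Y = X := curve_point ht3 hY3
  -- the estimate at the two points
  have key : ∀ s : ℝ, |s| = 1 → |A * X + s * (B * Y)| ≤ |C| * (2 * Y) ^ (1 + α) := by
    intro s hs
    set z : ℂ := (X : ℂ) + ((s * Y : ℝ) : ℂ) * Complex.I with hz
    have hzre : z.re = X := by simp [hz]
    have hzim : z.im = s * Y := by simp [hz]
    have hzn : ‖z‖ ≤ 2 * Y := by
      refine (norm_add_le _ _).trans ?_
      rw [norm_mul, Complex.norm_I, mul_one, Complex.norm_real, Complex.norm_real,
        Real.norm_eq_abs, Real.norm_eq_abs, abs_of_pos hX0, abs_mul, hs, one_mul, abs_of_pos hY0]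
      linarith
    have hfr : z ∈ frontier D := by
      rw [frontier_D]
      show z.re = g z.im
      rw [hzre, hzim]
      rcases (abs_eq one_pos.le).1 hs with h | h
      · rw [h, one_mul, hg]
      · rw [h, neg_one_mul, g_even, hg]
    have hball : z ∈ ball (0 : ℂ) ρ := by
      rw [mem_ball_zero_iff]; linarith
    have h1 := (hφ z hball).1 hfr
    have hcz : |(c * z).re| ≤ 2 * Y := by
      refine (Complex.abs_re_le_norm _).trans ?_
      rw [norm_mul, hc, one_mul]; exact hzn
    have h2 := hb (c * z).re (by linarith)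
    rw [← h1] at h2
    have h3 : (c * z).im - m * (c * z).re = A * X + s * (B * Y) := by
      rw [Complex.mul_im, Complex.mul_re, hzre, hzim, hA, hB]; ring
    rw [h3] at h2
    refine h2.trans ?_
    have h4 : |(c * z).re| ^ (1 + α) ≤ (2 * Y) ^ (1 + α) :=
      Real.rpow_le_rpow (abs_nonneg _) hcz (by linarith)
    have h5 : 0 ≤ |(c * z).re| ^ (1 + α) := Real.rpow_nonneg (abs_nonneg _) _
    calc C * |(c * z).re| ^ (1 + α) ≤ |C| * |(c * z).re| ^ (1 + α) :=
          mul_le_mul_of_nonneg_right (le_abs_self C) h5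
      _ ≤ |C| * (2 * Y) ^ (1 + α) := mul_le_mul_of_nonneg_left h4 hC
  have k1 := key 1 (by norm_num)
  have k2 := key (-1) (by norm_num)
  have kA : |A| * X ≤ |C| * (2 * Y) ^ (1 + α) := by
    have h1 : |2 * (A * X)| ≤ |A * X + 1 * (B * Y)| + |A * X + -1 * (B * Y)| := by
      have e : 2 * (A * X) = (A * X + 1 * (B * Y)) + (A * X + -1 * (B * Y)) := by ring
      rw [e]; exact abs_add_le _ _
    rw [abs_mul, abs_mul, abs_of_pos hX0, abs_of_pos (two_pos : (0 : ℝ) < 2)] at h1
    linarith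
  have kB : |B| * Y ≤ |C| * (2 * Y) ^ (1 + α) := by
    have h1 : |2 * (B * Y)| ≤ |A * X + 1 * (B * Y)| + |A * X + -1 * (B * Y)| := by
      have e : 2 * (B * Y) = (A * X + 1 * (B * Y)) - (A * X + -1 * (B * Y)) := by ring
      rw [e]; exact abs_sub _ _
    rw [abs_mul, abs_mul, abs_of_pos hY0, abs_of_pos (two_pos : (0 : ℝ) < 2)] at h1
    linarith
  have kX : X ≤ 2 * |C| * (2 * Y) ^ (1 + α) := by
    have h1 : |B| * X ≤ |B| * Y := mul_le_mul_of_nonneg_left hXY (abs_nonneg _)
    nlinarith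
  -- contradiction
  have h6 : (2 * Y) ^ (1 + α) = 2 ^ (1 + α) * (t ^ (1 + α) *
      (Real.exp (4 * α) * Real.exp (-α * t))) * Real.exp (4 - t) := by
    rw [hY, Real.mul_rpow two_pos.le (by positivity), Real.mul_rpow (by linarith) hexp.le,
      ← Real.exp_mul, ← Real.exp_add, mul_assoc, mul_assoc, ← Real.exp_add]
    congr 3
    ring
  rw [h6] at kX
  have h7 : X = Real.pi / 2 * Real.exp (4 - t) := hX
  have h8 : Real.pi / 2 * Real.exp (4 - t) ≤ ((2 * |C| * 2 ^ (1 + α) * Real.exp (4 * α)) *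
      (t ^ (1 + α) * Real.exp (-α * t))) * Real.exp (4 - t) := by
    rw [← h7]
    refine kX.trans (le_of_eq ?_)
    ring
  have h9 := le_of_mul_le_mul_right h8 hexp
  have := Real.pi_gt_three
  linarith

end Pool.Agent.TH299.FB
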