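import Mathlib

/-!
# Gluing a function with bounded second derivatives with zero

If `u = 0` outside an open set `D`, `u` has gradient `w` in `D`, both `u` and `w` are continuous and
vanish off `D`, and `w` has a bounded derivative in `D`, then `u` is differentiable with the
Lipschitz gradient `w`.
-/

set_option autoImplicit false

namespace Pool.Agent.TH299.FB

open Set Filter Topology

/-- The real linear form `h ↦ Re (w h)`. -/
noncomputable def T : ℂ →L[ℝ] (ℂ →L[ℝ] ℝ) :=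
  (ContinuousLinearMap.compL ℝ ℂ ℂ ℝ Complex.reCLM).comp (ContinuousLinearMap.mul ℝ ℂ)

@[simp] lemma T_apply (w h : ℂ) : T w h = (w * h).re := rfl

lemma norm_T_le (w : ℂ) : ‖T w‖ ≤ ‖w‖ := by
  refine ContinuousLinearMap.opNorm_le_bound _ (norm_nonneg _) fun h => ?_
  rw [T_apply, Real.norm_eq_abs, ← norm_mul]
  exact Complex.abs_re_le_norm _

variable {E : Type*} [NormedAddCommGroup E] [NormedSpace ℝ E]

lemma exit_bound {D : Set ℂ} (hD : IsOpen D) {Φ : ℂ → E} {Φ' : ℂ → ℂ →L[ℝ] E} {x y : ℂ} {L : ℝ}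
    (hL : 0 ≤ L) (hc : ContinuousOn Φ (segment ℝ y x))
    (h0 : ∀ p ∈ segment ℝ y x, p ∉ D → Φ p = 0)
    (hd : ∀ p ∈ segment ℝ y x, p ∈ D → HasFDerivAt Φ (Φ' p) p ∧ ‖Φ' p‖ ≤ L) (hx : x ∉ D) :
    ‖Φ y‖ ≤ L * ‖y - x‖ := by
  set p : ℝ → ℂ := fun t => y + t • (x - y) with hp
  have hpc : Continuous p := by fun_prop
  have hseg : ∀ t ∈ Icc (0 : ℝ) 1, p t ∈ segment ℝ y x := by
    intro t ht
    rw [segment_eq_image']
    exact ⟨t, ht, rfl⟩
  have hp0 : p 0 = y := by simp [hp]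
  have hp1 : p 1 = x := by simp [hp]
  set S : Set ℝ := Icc 0 1 ∩ p ⁻¹' Dᶜ with hS
  have hSc : IsClosed S := isClosed_Icc.inter (hD.isClosed_compl.preimage hpc)
  have hSne : S.Nonempty := ⟨1, ⟨zero_le_one, le_rfl⟩, by simpa [hp1] using hx⟩
  have hSb : BddBelow S := ⟨0, fun t ht => ht.1.1⟩
  set t₁ := sInf S with ht₁
  have ht₁S : t₁ ∈ S := hSc.csInf_mem hSne hSb
  have hlt : ∀ t ∈ Ico 0 t₁, p t ∈ D := by
    intro t ht
    by_contra hcon
    have : t ∈ S := ⟨⟨ht.1, ht.2.le.trans ht₁S.1.2⟩, hcon⟩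
    have := csInf_le hSb this
    linarith [ht.2]
  have hder : ∀ t, HasDerivAt p (x - y) t := by
    intro t
    have h1 : HasDerivAt (fun t : ℝ => t • (x - y)) ((1 : ℝ) • (x - y)) t :=
      (hasDerivAt_id t).smul_const (x - y)
    rw [one_smul] at h1
    exact h1.const_add y
  have key := norm_image_sub_le_of_norm_deriv_right_le_segment (f := fun t => Φ (p t))
    (f' := fun t => Φ' (p t) (x - y)) (a := 0) (b := t₁) (C := L * ‖x - y‖)
    (hc.comp hpc.continuousOn fun t ht => hseg t ⟨ht.1, ht.2.trans ht₁S.1.2⟩)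
    (fun t ht => by
      have hm := hseg t ⟨ht.1, ht.2.le.trans ht₁S.1.2⟩
      have h2 := (hd _ hm (hlt t ht)).1
      exact (h2.comp_hasDerivAt t (hder t)).hasDerivWithinAt)
    (fun t ht => by
      have hm := hseg t ⟨ht.1, ht.2.le.trans ht₁S.1.2⟩
      have h2 := (hd _ hm (hlt t ht)).2
      exact (ContinuousLinearMap.le_opNorm _ _).trans
        (mul_le_mul_of_nonneg_right h2 (norm_nonneg _)))
    t₁ ⟨ht₁S.1.1, le_rfl⟩
  have h3 : Φ (p t₁) = 0 := h0 _ (hseg _ ht₁S.1) ht₁S.2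
  simp only [h3, hp0, zero_sub, norm_neg, sub_zero] at key
  calc ‖Φ y‖ ≤ L * ‖x - y‖ * t₁ := key
    _ ≤ L * ‖x - y‖ * 1 := mul_le_mul_of_nonneg_left ht₁S.1.2 (by positivity)
    _ = L * ‖y - x‖ := by rw [mul_one, norm_sub_rev]

theorem glue_lip {B D : Set ℂ} (hBc : Convex ℝ B) (hD : IsOpen D)
    {w : ℂ → ℂ} {w' : ℂ → ℂ →L[ℝ] ℂ} {L : ℝ} (hL : 0 ≤ L)
    (hwc : ContinuousOn w B) (hw0 : ∀ z ∈ B, z ∉ D → w z = 0)
    (hwd : ∀ z ∈ B, z ∈ D → HasFDerivAt w (w' z) z ∧ ‖w' z‖ ≤ L) :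
    ∀ x ∈ B, ∀ y ∈ B, ‖w x - w y‖ ≤ L * ‖x - y‖ := by
  have key : ∀ x ∈ B, ∀ y ∈ B, x ∉ D → ‖w y‖ ≤ L * ‖y - x‖ := by
    intro x hx y hy hxD
    have hsub : segment ℝ y x ⊆ B := hBc.segment_subset hy hx
    exact exit_bound hD hL (hwc.mono hsub) (fun p hp => hw0 p (hsub hp))
      (fun p hp => hwd p (hsub hp)) hxD
  intro x hx y hy
  by_cases hsD : segment ℝ x y ⊆ D
  · have hsub : segment ℝ x y ⊆ B := hBc.segment_subset hx hy
    have h := (convex_segment x y).norm_image_sub_le_of_norm_hasFDerivWithin_le (𝕜 := ℝ) (f := w)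
      (f' := w') (C := L) (fun z hz => ((hwd z (hsub hz) (hsD hz)).1).hasFDerivWithinAt)
      (fun z hz => (hwd z (hsub hz) (hsD hz)).2) (left_mem_segment ℝ x y) (right_mem_segment ℝ x y)
    rw [norm_sub_rev (w x), norm_sub_rev x]
    exact h
  · obtain ⟨z, hz, hzD⟩ := not_subset.1 hsD
    have hzB := hBc.segment_subset hx hy hz
    have h1 := key z hzB x hx hzD
    have h2 := key z hzB y hy hzD
    have h3 : ‖x - z‖ + ‖y - z‖ = ‖x - y‖ := by
      have := dist_add_dist_of_mem_segment hz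
      rw [dist_eq_norm, dist_eq_norm, dist_eq_norm] at this
      rw [norm_sub_rev y z]; exact this
    calc ‖w x - w y‖ ≤ ‖w x‖ + ‖w y‖ := norm_sub_le _ _
      _ ≤ L * ‖x - z‖ + L * ‖y - z‖ := add_le_add h1 h2
      _ = L * ‖x - y‖ := by rw [← mul_add, h3]

theorem glue_diff {B D : Set ℂ} (hB : IsOpen B) (hBc : Convex ℝ B) (hD : IsOpen D)
    {u : ℂ → ℝ} {w : ℂ → ℂ} {L : ℝ} (hL : 0 ≤ L)
    (hw0 : ∀ z ∈ B, z ∉ D → w z = 0)
    (hwL : ∀ x ∈ B, ∀ y ∈ B, ‖w x - w y‖ ≤ L * ‖x - y‖)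
    (huc : ContinuousOn u B) (hu0 : ∀ z ∈ B, z ∉ D → u z = 0)
    (hud : ∀ z ∈ B, z ∈ D → HasFDerivAt u (T (w z)) z) :
    ∀ z ∈ B, HasFDerivAt u (T (w z)) z := by
  intro x hx
  by_cases hxD : x ∈ D
  · exact hud x hx hxD
  rw [hw0 x hx hxD, map_zero]
  have hbound : ∀ y ∈ B, ‖u y‖ ≤ L * ‖y - x‖ * ‖y - x‖ := by
    intro y hy
    have hsub : segment ℝ y x ⊆ B := hBc.segment_subset hy hx
    refine exit_bound (Φ := u) (Φ' := fun z => T (w z)) hD (by positivity) (huc.mono hsub)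
      (fun p hp => hu0 p (hsub hp)) (fun p hp hpD => ⟨hud p (hsub hp) hpD, ?_⟩) hxD
    refine (norm_T_le _).trans ?_
    have h1 := hwL p (hsub hp) x hx
    rw [hw0 x hx hxD, sub_zero] at h1
    refine h1.trans (mul_le_mul_of_nonneg_left ?_ hL)
    have := dist_add_dist_of_mem_segment hp
    rw [dist_eq_norm, dist_eq_norm, dist_eq_norm] at this
    have := norm_nonneg (y - p)
    linarith
  rw [hasFDerivAt_iff_isLittleO_nhds_zero]
  rw [Asymptotics.isLittleO_iff]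
  intro c hc
  obtain ⟨δ, hδ, hball⟩ := Metric.isOpen_iff.1 hB x hx
  have hev : ∀ᶠ h : ℂ in 𝓝 0, ‖h‖ < min δ (c / (L + 1)) := by
    have : Metric.ball (0 : ℂ) (min δ (c / (L + 1))) ∈ 𝓝 (0 : ℂ) :=
      Metric.ball_mem_nhds _ (by positivity)
    filter_upwards [this] with h hh
    simpa using hh
  filter_upwards [hev] with h hh
  have h1 : ‖h‖ < δ := hh.trans_le (min_le_left _ _)
  have h2 : ‖h‖ < c / (L + 1) := hh.trans_le (min_le_right _ _)
  have hxh : x + h ∈ B := hball (by simpa using h1)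
  have h3 := hbound (x + h) hxh
  rw [add_sub_cancel_left] at h3
  simp only [hu0 x hx hxD, zero_apply, sub_zero]
  refine h3.trans (mul_le_mul_of_nonneg_right ?_ (norm_nonneg _))
  rw [lt_div_iff₀ (by positivity)] at h2
  nlinarith [norm_nonneg h]

end Pool.Agent.TH299.FB
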