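import Pool.Agent.TH299.FB.Lam

/-!
# The boundary curve `|Y| = (2/π) X log (κ/X)`, `κ = (π/2) e⁴`, as a graph over the `Y` axis
-/

set_option autoImplicit false

namespace Pool.Agent.TH299.FB

open Set Filter Topology

/-- The real branch. -/
noncomputable def av (Y : ℝ) : ℝ := (V (Y : ℂ)).re

lemma av_le (Y : ℝ) : av Y ≤ -2 := V_mem _

lemma V_real {Y : ℝ} (h0 : 0 < Y) (h7 : Y < 7) : (av Y : ℂ) = V (Y : ℂ) := by
  unfold av V
  have e : Complex.log (Y : ℂ) - 4 = ((Real.log Y - 4 : ℝ) : ℂ) := by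
    rw [Complex.ofReal_sub, Complex.ofReal_log h0.le]; norm_num
  rw [e]
  apply Vf_real
  have h := log_re_lt (z := (Y : ℂ)) (by exact_mod_cast h0.ne') (by
    rw [Complex.norm_real, Real.norm_eq_abs, abs_of_pos h0]; exact h7)
  rw [e, Complex.ofReal_re] at h
  exact h.le

lemma av_eq {Y : ℝ} (h0 : 0 < Y) (h7 : Y < 7) :
    av Y + Real.log (-(av Y)) = Real.log Y - 4 := by
  have hn : ‖(Y : ℂ)‖ < 7 := by
    rw [Complex.norm_real, Real.norm_eq_abs, abs_of_pos h0]; exact h7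
  have h := V_eq (z := (Y : ℂ)) (by exact_mod_cast h0.ne') hn
  rw [← V_real h0 h7] at h
  have h2 := congrArg Complex.re h
  rw [← Complex.ofReal_neg, ← Complex.ofReal_log (by linarith [av_le Y]),
    ← Complex.ofReal_log h0.le] at h2
  simpa using h2

lemma av_unique {a Y : ℝ} (h0 : 0 < Y) (h7 : Y < 7) (ha : a ≤ -2)
    (e : a + Real.log (-a) = Real.log Y - 4) : av Y = a := by
  have hn : ‖(Y : ℂ)‖ < 7 := by
    rw [Complex.norm_real, Real.norm_eq_abs, abs_of_pos h0]; exact h7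
  have h : V (Y : ℂ) = (a : ℂ) := by
    refine V_unique (by exact_mod_cast h0.ne') hn (by simpa [P] using ha) ?_
    rw [← Complex.ofReal_neg, ← Complex.ofReal_log (by linarith), ← Complex.ofReal_log h0.le]
    exact_mod_cast e
  unfold av
  rw [h, Complex.ofReal_re]

lemma av_le_log {Y : ℝ} (h0 : 0 < Y) (h7 : Y < 7) : av Y ≤ Real.log Y - 4 := by
  have h := av_eq h0 h7
  have h2 : 0 < Real.log (-(av Y)) := Real.log_pos (by linarith [av_le Y])
  linarith

lemma av_exp {Y : ℝ} (h0 : 0 < Y) (h7 : Y < 7) : -(av Y) * Real.exp (4 + av Y) = Y := by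
  have h := av_eq h0 h7
  have h1 : 0 < -(av Y) := by linarith [av_le Y]
  have h2 := congrArg Real.exp h
  rw [Real.exp_add, Real.exp_log h1, Real.exp_sub, Real.exp_log h0] at h2
  have h4 := Real.exp_pos 4
  rw [eq_div_iff h4.ne'] at h2
  rw [Real.exp_add]
  linear_combination h2

lemma hasDerivAt_av {Y : ℝ} (h0 : 0 < Y) (h7 : Y < 7) :
    HasDerivAt av (av Y / (Y * (1 + av Y))) Y := by
  have hn : ‖(Y : ℂ)‖ < 7 := by
    rw [Complex.norm_real, Real.norm_eq_abs, abs_of_pos h0]; exact h7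
  have hs : (Y : ℂ) ∈ Complex.slitPlane := by left; simpa using h0
  have h := (hasDerivAt_V hs hn).real_of_complex
  refine HasDerivAt.congr_deriv (f := av) h ?_
  rw [← V_real h0 h7]
  have h1 : av Y ≠ 0 := by have := av_le Y; intro h; linarith
  have h2 : 1 + av Y ≠ 0 := by have := av_le Y; intro h; linarith
  have h3 : (1 + 1 / (av Y : ℂ))⁻¹ * (1 / (Y : ℂ)) = ((av Y / (Y * (1 + av Y)) : ℝ) : ℂ) := by
    have h1' : (av Y : ℂ) ≠ 0 := by exact_mod_cast h1
    have h2' : (1 + av Y : ℂ) ≠ 0 := by exact_mod_cast h2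
    have h0' : (Y : ℂ) ≠ 0 := by exact_mod_cast h0.ne'
    have h4 : 1 + 1 / (av Y : ℂ) = (1 + av Y) / av Y := by field_simp; ring
    rw [h4]
    push_cast
    field_simp
  rw [h3, Complex.ofReal_re]

/-- The graph over the positive half axis: `G1 Y = (π/2) Y / (-a(Y))`. -/
noncomputable def G1 (Y : ℝ) : ℝ := Real.pi / 2 * Y / (-(av Y))

lemma G1_zero : G1 0 = 0 := by simp [G1]

lemma G1_eq_exp {Y : ℝ} (h0 : 0 < Y) (h7 : Y < 7) :
    G1 Y = Real.pi / 2 * Real.exp (4 + av Y) := by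
  have h1 : 0 < -(av Y) := by linarith [av_le Y]
  unfold G1
  rw [div_eq_iff h1.ne']
  conv_lhs => rw [← av_exp h0 h7]
  ring

lemma G1_nonneg {Y : ℝ} (h0 : 0 ≤ Y) : 0 ≤ G1 Y := by
  have h1 : 0 < -(av Y) := by linarith [av_le Y]
  unfold G1
  positivity

lemma hasDerivAt_G1 {Y : ℝ} (h0 : 0 < Y) (h7 : Y < 7) :
    HasDerivAt G1 (Real.pi / 2 / (-(av Y) - 1)) Y := by
  have h1 : av Y ≠ 0 := by have := av_le Y; intro h; linarith
  have h2 : 1 + av Y ≠ 0 := by have := av_le Y; intro h; linarith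
  have h2' : -(av Y) - 1 ≠ 0 := by intro h; apply h2; linarith
  have hd := ((hasDerivAt_id Y).const_mul (Real.pi / 2)).div (hasDerivAt_av h0 h7).neg
    (neg_ne_zero.2 h1)
  refine hd.congr_deriv ?_
  simp only [id, Pi.neg_apply]
  have h0' := h0.ne'
  field_simp
  ring

/-- The even extension. -/
noncomputable def hh (Y : ℝ) : ℝ := G1 |Y|

/-- Its derivative. -/
noncomputable def dh (Y : ℝ) : ℝ := SignType.sign Y * (Real.pi / 2 / (-(av |Y|) - 1))

lemma neg_av_ge {Y : ℝ} (h0 : 0 < Y) (h7 : Y < 7) : 4 - Real.log Y ≤ -(av Y) := by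
  linarith [av_le_log h0 h7]

lemma dh_le (Y : ℝ) : |dh Y| ≤ Real.pi / 2 := by
  have h1 : 1 ≤ -(av |Y|) - 1 := by linarith [av_le |Y|]
  have hpi := Real.pi_pos
  have h2 : |(SignType.sign Y : ℝ)| ≤ 1 := by
    rcases lt_trichotomy Y 0 with h | h | h
    · simp [sign_neg h]
    · simp [h]
    · simp [sign_pos h]
  unfold dh
  rw [abs_mul, abs_of_pos (show 0 < Real.pi / 2 / (-(av |Y|) - 1) by positivity)]
  have h3 : Real.pi / 2 / (-(av |Y|) - 1) ≤ Real.pi / 2 := div_le_self (by positivity) h1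
  calc _ ≤ 1 * (Real.pi / 2 / (-(av |Y|) - 1)) :=
        mul_le_mul_of_nonneg_right h2 (by positivity)
    _ ≤ _ := by rw [one_mul]; exact h3

lemma tendsto_neg_av : Tendsto (fun Y : ℝ => -(av |Y|)) (𝓝[≠] 0) atTop := by
  have h1 : Tendsto (fun Y : ℝ => 4 - Real.log |Y|) (𝓝[≠] 0) atTop := by
    have h2 : Tendsto (fun Y : ℝ => Real.log |Y|) (𝓝[≠] 0) atBot := by
      simpa [Real.log_abs] using Real.tendsto_log_nhdsNE_zero
    exact tendsto_atTop_add_const_left _ 4 (tendsto_neg_atBot_atTop.comp h2)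
  refine tendsto_atTop_mono' _ ?_ h1
  have h3 : Ioo (-7 : ℝ) 7 ∈ 𝓝 (0 : ℝ) := Ioo_mem_nhds (by norm_num) (by norm_num)
  filter_upwards [self_mem_nhdsWithin, mem_nhdsWithin_of_mem_nhds h3] with Y hY hY7
  exact neg_av_ge (abs_pos.2 hY) (abs_lt.2 hY7)

lemma hasDerivAt_hh {Y : ℝ} (h7 : |Y| < 7) : HasDerivAt hh (dh Y) Y := by
  rcases lt_trichotomy Y 0 with h | h | h
  · have h1 : HasDerivAt (fun y : ℝ => G1 (-y)) (Real.pi / 2 / (-(av (-Y)) - 1) * (-1)) Y := by
      rw [abs_of_neg h] at h7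
      exact (hasDerivAt_G1 (Y := -Y) (by linarith) h7).comp Y (hasDerivAt_neg Y)
    have h2 : hh =ᶠ[𝓝 Y] fun y => G1 (-y) := by
      filter_upwards [Iio_mem_nhds h] with y hy
      unfold hh; rw [abs_of_neg hy]
    refine (h1.congr_of_eventuallyEq h2).congr_deriv ?_
    unfold dh
    rw [sign_neg h, abs_of_neg h]
    simp
  · subst h
    have e : dh 0 = 0 := by simp [dh]
    rw [e, hasDerivAt_iff_tendsto_slope]
    have h1 : Tendsto (fun Y : ℝ => Real.pi / 2 / (-(av |Y|))) (𝓝[≠] 0) (𝓝 0) :=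
      tendsto_const_nhds.div_atTop tendsto_neg_av
    refine squeeze_zero_norm' ?_ h1
    filter_upwards [self_mem_nhdsWithin] with y hy
    have hy0 : 0 < |y| := abs_pos.2 hy
    have h2 : 0 < -(av |y|) := by linarith [av_le |y|]
    rw [slope_def_field]
    have e2 : hh 0 = 0 := by unfold hh; rw [abs_zero, G1_zero]
    rw [e2, sub_zero, sub_zero, Real.norm_eq_abs, abs_div]
    unfold hh
    rw [abs_of_nonneg (G1_nonneg hy0.le)]
    unfold G1
    apply le_of_eq
    field_simp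
  · have h1 := hasDerivAt_G1 (Y := Y) h (by rwa [abs_of_pos h] at h7)
    have h2 : hh =ᶠ[𝓝 Y] G1 := by
      filter_upwards [Ioi_mem_nhds h] with y hy
      unfold hh; rw [abs_of_pos hy]
    refine (h1.congr_of_eventuallyEq h2).congr_deriv ?_
    unfold dh
    rw [sign_pos h, abs_of_pos h]
    simp

lemma continuousAt_dh {Y : ℝ} (h7 : |Y| < 7) : ContinuousAt dh Y := by
  have key : ∀ y : ℝ, 0 < y → y < 7 → ContinuousAt (fun y => Real.pi / 2 / (-(av y) - 1)) y := by
    intro y h0 h7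
    have h2' : -(av y) - 1 ≠ 0 := by have := av_le y; intro h; linarith
    exact continuousAt_const.div (((hasDerivAt_av h0 h7).continuousAt.neg).sub continuousAt_const) h2'
  rcases lt_trichotomy Y 0 with h | h | h
  · have h1 : dh =ᶠ[𝓝 Y] fun y => -(Real.pi / 2 / (-(av (-y)) - 1)) := by
      filter_upwards [Iio_mem_nhds h] with y hy
      unfold dh; rw [sign_neg hy, abs_of_neg hy]; simp
    rw [abs_of_neg h] at h7
    have h3 : ContinuousAt (fun y => Real.pi / 2 / (-(av (-y)) - 1)) Y :=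
      ContinuousAt.comp (f := fun y : ℝ => -y) (key (-Y) (by linarith) h7) continuousAt_neg
    exact (h3.neg).congr h1.symm
  · subst h
    have e : dh 0 = 0 := by simp [dh]
    rw [continuousAt_iff_punctured_nhds, e]
    have h1 : Tendsto (fun Y : ℝ => Real.pi / 2 / (-(av |Y|) - 1)) (𝓝[≠] 0) (𝓝 0) :=
      tendsto_const_nhds.div_atTop (tendsto_atTop_add_const_right _ (-1) tendsto_neg_av)
    refine squeeze_zero_norm' ?_ h1
    filter_upwards [self_mem_nhdsWithin] with y hy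
    have h2 : 0 < -(av |y|) - 1 := by linarith [av_le |y|]
    have h3 : |(SignType.sign y : ℝ)| = 1 := by
      rcases lt_or_gt_of_ne (show y ≠ 0 from hy) with h | h
      · simp [sign_neg h]
      · simp [sign_pos h]
    unfold dh
    rw [Real.norm_eq_abs, abs_mul, h3, one_mul, abs_of_pos (by have := Real.pi_pos; positivity)]
  · have h1 : dh =ᶠ[𝓝 Y] fun y => (Real.pi / 2 / (-(av y) - 1)) := by
      filter_upwards [Ioi_mem_nhds h] with y hy
      unfold dh; rw [sign_pos hy, abs_of_pos hy]; simp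
    rw [abs_of_pos h] at h7
    exact (key Y h h7).congr h1.symm

/-- The boundary graph, extended by constants for `|Y| ≥ 3`. -/
noncomputable def g (Y : ℝ) : ℝ := hh (min |Y| 3)

lemma g_eq {Y : ℝ} (h : |Y| ≤ 3) : g Y = hh Y := by
  unfold g hh
  rw [min_eq_left h, abs_abs]

lemma g_eq' {Y : ℝ} (h : |Y| ≤ 3) : g Y = G1 |Y| := by
  rw [g_eq h]; rfl

lemma g_even (Y : ℝ) : g (-Y) = g Y := by
  unfold g; rw [abs_neg]

lemma g_zero : g 0 = 0 := by
  rw [g_eq (by norm_num)]; unfold hh; rw [abs_zero, G1_zero]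

lemma g_nonneg (Y : ℝ) : 0 ≤ g Y := by
  unfold g hh
  exact G1_nonneg (abs_nonneg _)

lemma g_lipschitz : LipschitzWith 2 g := by
  refine LipschitzWith.of_dist_le_mul fun x y => ?_
  have hconv : Convex ℝ (Icc (-3 : ℝ) 3) := convex_Icc _ _
  have hpi : Real.pi / 2 ≤ 2 := by have := Real.pi_lt_four; linarith
  have hm : ∀ z : ℝ, min |z| 3 ∈ Icc (-3 : ℝ) 3 := fun z =>
    ⟨by have := abs_nonneg z; exact le_min (by linarith) (by norm_num), min_le_right _ _⟩
  have h := hconv.norm_image_sub_le_of_norm_hasDerivWithin_le (f := hh) (f' := dh) (C := 2)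
    (x := min |y| 3) (y := min |x| 3)
    (fun z hz => (hasDerivAt_hh (by
      have := abs_le.2 hz; linarith)).hasDerivWithinAt)
    (fun z _ => by rw [Real.norm_eq_abs]; exact (dh_le z).trans hpi) (hm y) (hm x)
  rw [dist_eq_norm, dist_eq_norm]
  refine h.trans ?_
  simp only [NNReal.coe_ofNat]
  refine mul_le_mul_of_nonneg_left ?_ (by norm_num)
  rw [Real.norm_eq_abs, Real.norm_eq_abs]
  refine (abs_min_sub_min_le_max _ _ _ _).trans ?_
  rw [sub_self, abs_zero]
  exact max_le (abs_abs_sub_abs_le_abs_sub _ _) (abs_nonneg _)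

lemma g_continuous : Continuous g := g_lipschitz.continuous

lemma g_contDiffOn : ContDiffOn ℝ 1 g (Ioo (-3) 3) := by
  have hd : ∀ Y ∈ Ioo (-3 : ℝ) 3, HasDerivAt g (dh Y) Y := by
    intro Y hY
    have h1 : g =ᶠ[𝓝 Y] hh := by
      filter_upwards [Ioo_mem_nhds hY.1 hY.2] with y hy
      exact g_eq (abs_le.2 ⟨hy.1.le, hy.2.le⟩)
    exact (hasDerivAt_hh (by have := abs_lt.2 hY; linarith)).congr_of_eventuallyEq h1
  rw [contDiffOn_one_iff_derivWithin (uniqueDiffOn_Ioo _ _)]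
  refine ⟨fun Y hY => (hd Y hY).differentiableAt.differentiableWithinAt, ?_⟩
  have h2 : ContinuousOn dh (Ioo (-3) 3) := fun Y hY =>
    (continuousAt_dh (by have := abs_lt.2 hY; linarith)).continuousWithinAt
  refine h2.congr fun Y hY => ?_
  rw [derivWithin_of_isOpen isOpen_Ioo hY, (hd Y hY).deriv]

end Pool.Agent.TH299.FB
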