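import Mathlib

/-!
# The branch `v` of the inverse of `z = -e⁴ v eᵛ` on the slit disc

`Vf w` is the unique solution `v` of `v + log (-v) = w` in the half plane `re v ≤ -2`,
for `re w ≤ -2`.
-/

set_option autoImplicit false

namespace Pool.Agent.TH299.FB

open Set Filter Topology

/-- The closed half plane `re v ≤ -2`. -/
def P : Set ℂ := {v | v.re ≤ -2}

lemma isClosed_P : IsClosed P := isClosed_le Complex.continuous_re continuous_const

lemma convex_P : Convex ℝ P := by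
  have : P = Complex.reLm ⁻¹' (Iic (-2)) := by ext v; simp [P]
  rw [this]
  exact (convex_Iic (-2 : ℝ)).linear_preimage Complex.reLm

lemma norm_P {v : ℂ} (hv : v ∈ P) : 2 ≤ ‖v‖ := by
  have h1 := Complex.abs_re_le_norm v
  have h2 : v.re ≤ -2 := hv
  have h3 := neg_le_abs v.re
  linarith

lemma neg_slit {v : ℂ} (hv : v ∈ P) : -v ∈ Complex.slitPlane := by
  left
  have h2 : v.re ≤ -2 := hv
  simp only [Complex.neg_re]; linarith

lemma hasDerivAt_logneg {v : ℂ} (hv : v ∈ P) :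
    HasDerivAt (fun v : ℂ => Complex.log (-v)) (1 / v) v := by
  have h1 := (hasDerivAt_neg v).clog (neg_slit hv)
  convert h1 using 1
  rw [neg_div_neg_eq]

lemma lip {v₁ v₂ : ℂ} (h₁ : v₁ ∈ P) (h₂ : v₂ ∈ P) :
    ‖Complex.log (-v₂) - Complex.log (-v₁)‖ ≤ 1 / 2 * ‖v₂ - v₁‖ := by
  refine convex_P.norm_image_sub_le_of_norm_hasDerivWithin_le (f := fun v : ℂ => Complex.log (-v))
    (f' := fun v => 1 / v) (fun v hv => (hasDerivAt_logneg hv).hasDerivWithinAt) ?_ h₁ h₂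
  intro v hv
  rw [norm_div, norm_one]
  exact one_div_le_one_div_of_le two_pos (norm_P hv)

lemma re_logneg {v : ℂ} (hv : v ∈ P) : 0 < (Complex.log (-v)).re := by
  rw [Complex.log_re, norm_neg]
  exact Real.log_pos (by linarith [norm_P hv])

lemma exists_sol {w : ℂ} (hw : w.re ≤ -2) : ∃ v ∈ P, v + Complex.log (-v) = w := by
  have hmaps : MapsTo (fun v : ℂ => w - Complex.log (-v)) P P := by
    intro v hv
    have := re_logneg hv
    show (w - Complex.log (-v)).re ≤ -2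
    rw [Complex.sub_re]; linarith
  have hc : ContractingWith (1 / 2 : NNReal) (hmaps.restrict (fun v : ℂ => w - Complex.log (-v)) P P) := by
    refine ⟨by
      rw [← NNReal.coe_lt_coe]; norm_num, ?_⟩
    refine LipschitzWith.of_dist_le_mul fun x y => ?_
    rw [Subtype.dist_eq, Subtype.dist_eq, dist_eq_norm, dist_eq_norm]
    have h := lip x.2 y.2
    have e : ((hmaps.restrict (fun v : ℂ => w - Complex.log (-v)) P P x : P) : ℂ) -
        ((hmaps.restrict (fun v : ℂ => w - Complex.log (-v)) P P y : P) : ℂ) =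
        Complex.log (-(y : ℂ)) - Complex.log (-(x : ℂ)) := by
      show (w - Complex.log (-(x : ℂ))) - (w - Complex.log (-(y : ℂ))) = _
      ring
    rw [e]
    refine h.trans (le_of_eq ?_)
    rw [norm_sub_rev]
    norm_num
  obtain ⟨v, hv, hfix, -⟩ := hc.exists_fixedPoint' isClosed_P.isComplete hmaps
    (x := (-2 : ℂ)) (by show (-2 : ℂ).re ≤ -2; norm_num) (edist_ne_top _ _)
  refine ⟨v, hv, ?_⟩
  have h : w - Complex.log (-v) = v := hfix
  linear_combination -h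

lemma dist_sol {v₁ v₂ w₁ w₂ : ℂ} (h₁ : v₁ ∈ P) (h₂ : v₂ ∈ P)
    (e₁ : v₁ + Complex.log (-v₁) = w₁) (e₂ : v₂ + Complex.log (-v₂) = w₂) :
    ‖v₂ - v₁‖ ≤ 2 * ‖w₂ - w₁‖ := by
  have h := lip h₁ h₂
  have e : v₂ - v₁ = (w₂ - w₁) - (Complex.log (-v₂) - Complex.log (-v₁)) := by
    rw [← e₁, ← e₂]; ring
  have h3 : ‖v₂ - v₁‖ ≤ ‖w₂ - w₁‖ + ‖Complex.log (-v₂) - Complex.log (-v₁)‖ := by
    conv_lhs => rw [e]
    exact norm_sub_le _ _
  linarith

lemma sol_unique {v₁ v₂ w : ℂ} (h₁ : v₁ ∈ P) (h₂ : v₂ ∈ P)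
    (e₁ : v₁ + Complex.log (-v₁) = w) (e₂ : v₂ + Complex.log (-v₂) = w) : v₁ = v₂ := by
  have h := dist_sol h₁ h₂ e₁ e₂
  rw [sub_self, norm_zero, mul_zero] at h
  have := norm_le_zero_iff.1 h
  exact (sub_eq_zero.1 this).symm

/-- The solution `v = Vf w` of `v + log (-v) = w`, `re v ≤ -2`. -/
noncomputable def Vf (w : ℂ) : ℂ := if h : w.re ≤ -2 then (exists_sol h).choose else -2

lemma Vf_mem (w : ℂ) : Vf w ∈ P := by
  unfold Vf
  split_ifs with h
  · exact (exists_sol h).choose_spec.1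
  · show (-2 : ℂ).re ≤ -2
    norm_num

lemma Vf_eq {w : ℂ} (h : w.re ≤ -2) : Vf w + Complex.log (-(Vf w)) = w := by
  unfold Vf
  rw [dif_pos h]
  exact (exists_sol h).choose_spec.2

lemma Vf_unique {v w : ℂ} (hw : w.re ≤ -2) (hv : v ∈ P) (e : v + Complex.log (-v) = w) :
    Vf w = v := sol_unique (Vf_mem w) hv (Vf_eq hw) e

lemma Vf_continuousAt {w : ℂ} (hw : w.re < -2) : ContinuousAt Vf w := by
  rw [Metric.continuousAt_iff]
  intro ε hε
  have ho : IsOpen {w : ℂ | w.re < -2} := isOpen_lt Complex.continuous_re continuous_const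
  obtain ⟨δ, hδ, hball⟩ := Metric.isOpen_iff.1 ho w hw
  refine ⟨min δ (ε / 2), by positivity, fun {y} hy => ?_⟩
  have hy1 : y.re < -2 := hball (Metric.mem_ball.2 (lt_of_lt_of_le hy (min_le_left _ _)))
  have hy2 : dist y w < ε / 2 := lt_of_lt_of_le hy (min_le_right _ _)
  rw [dist_eq_norm] at hy2 ⊢
  have := dist_sol (Vf_mem w) (Vf_mem y) (Vf_eq hw.le) (Vf_eq hy1.le)
  linarith

lemma one_add_ne {v : ℂ} (hv : v ∈ P) : 1 + 1 / v ≠ 0 := by
  intro h
  have hv0 : v ≠ 0 := by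
    rintro rfl
    have : (0 : ℂ).re ≤ -2 := hv
    norm_num at this
  have h1 : v = -1 := by
    field_simp at h
    linear_combination h
  rw [h1] at hv
  have : (-1 : ℂ).re ≤ -2 := hv
  norm_num at this

lemma hasDerivAt_Vf {w : ℂ} (hw : w.re < -2) : HasDerivAt Vf (1 + 1 / Vf w)⁻¹ w := by
  have ho : IsOpen {w : ℂ | w.re < -2} := isOpen_lt Complex.continuous_re continuous_const
  refine HasDerivAt.of_local_left_inverse (f := fun v : ℂ => v + Complex.log (-v))
    (Vf_continuousAt hw) ((hasDerivAt_id _).add (hasDerivAt_logneg (Vf_mem w)))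
    (one_add_ne (Vf_mem w)) ?_
  filter_upwards [ho.mem_nhds hw] with y hy
  exact Vf_eq (le_of_lt hy)

lemma conj_mem {v : ℂ} (hv : v ∈ P) : (starRingEnd ℂ) v ∈ P := by
  show ((starRingEnd ℂ) v).re ≤ -2
  rw [Complex.conj_re]; exact hv

lemma Vf_conj {w : ℂ} (hw : w.re ≤ -2) : Vf ((starRingEnd ℂ) w) = (starRingEnd ℂ) (Vf w) := by
  refine Vf_unique (by rw [Complex.conj_re]; exact hw) (conj_mem (Vf_mem w)) ?_
  have h := Vf_eq hw
  have h2 : Complex.log (-(starRingEnd ℂ) (Vf w)) = (starRingEnd ℂ) (Complex.log (-(Vf w))) := by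
    rw [← map_neg, Complex.log_conj]
    have h3 := Complex.mem_slitPlane_iff_arg.1 (neg_slit (Vf_mem w))
    exact h3.1
  rw [h2, ← map_add, h]

lemma Vf_real {y : ℝ} (hy : y ≤ -2) : ((Vf y).re : ℂ) = Vf y := by
  have h := Vf_conj (w := (y : ℂ)) (by simpa using hy)
  rw [Complex.conj_ofReal] at h
  exact Complex.conj_eq_iff_re.1 h.symm

/-! ### The branch on the slit disc -/

/-- `v(z)`, the solution of `z = -e⁴ v eᵛ`. -/
noncomputable def V (z : ℂ) : ℂ := Vf (Complex.log z - 4)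

lemma V_mem (z : ℂ) : V z ∈ P := Vf_mem _

lemma log_re_lt {z : ℂ} (hz : z ≠ 0) (hz2 : ‖z‖ < 7) : (Complex.log z - 4).re < -2 := by
  rw [Complex.sub_re, Complex.log_re]
  have h1 : Real.log ‖z‖ < 2 := by
    rw [Real.log_lt_iff_lt_exp (norm_pos_iff.2 hz)]
    have : (7 : ℝ) < Real.exp 2 := by
      have := Real.exp_one_gt_d9
      have e : Real.exp 2 = Real.exp 1 * Real.exp 1 := by rw [← Real.exp_add]; norm_num
      rw [e]; nlinarith
    linarith
  norm_num
  linarith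

lemma V_eq {z : ℂ} (hz : z ≠ 0) (hz2 : ‖z‖ < 7) :
    V z + Complex.log (-(V z)) = Complex.log z - 4 := Vf_eq (log_re_lt hz hz2).le

lemma V_ne (z : ℂ) : V z ≠ 0 := by
  intro h
  have := norm_P (V_mem z)
  rw [h, norm_zero] at this
  norm_num at this

lemma V_param {z : ℂ} (hz : z ≠ 0) (hz2 : ‖z‖ < 7) :
    -(Real.exp 4 : ℂ) * V z * Complex.exp (V z) = z := by
  have h := congrArg Complex.exp (V_eq hz hz2)
  rw [Complex.exp_add, Complex.exp_log (neg_ne_zero.2 (V_ne z)), Complex.exp_sub,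
    Complex.exp_log hz] at h
  have h4 : Complex.exp 4 ≠ 0 := Complex.exp_ne_zero _
  rw [eq_div_iff h4] at h
  rw [Complex.ofReal_exp]
  have e4 : ((4 : ℝ) : ℂ) = 4 := by norm_num
  rw [e4]
  linear_combination h

lemma V_unique {v z : ℂ} (hz : z ≠ 0) (hz2 : ‖z‖ < 7) (hv : v ∈ P)
    (e : v + Complex.log (-v) = Complex.log z - 4) : V z = v :=
  Vf_unique (log_re_lt hz hz2).le hv e

lemma hasDerivAt_V {z : ℂ} (hz : z ∈ Complex.slitPlane) (hz2 : ‖z‖ < 7) :
    HasDerivAt V ((1 + 1 / V z)⁻¹ * (1 / z)) z := by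
  have hz0 : z ≠ 0 := Complex.slitPlane_ne_zero hz
  have h1 : HasDerivAt (fun z : ℂ => Complex.log z - 4) (1 / z) z := by
    have := (Complex.hasDerivAt_log hz).sub_const 4
    simpa using this
  exact (hasDerivAt_Vf (log_re_lt hz0 hz2)).comp z h1

lemma norm_exp_V {z : ℂ} (hz : z ≠ 0) (hz2 : ‖z‖ < 7) :
    ‖Complex.exp (V z)‖ = ‖z‖ / (Real.exp 4 * ‖V z‖) := by
  have h := congrArg norm (V_param hz hz2)
  have hV : 0 < ‖V z‖ := norm_pos_iff.2 (V_ne z)
  rw [norm_mul, norm_mul, norm_neg, Complex.norm_real, Real.norm_eq_abs,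
    abs_of_pos (Real.exp_pos 4)] at h
  rw [eq_div_iff (by positivity)]
  rw [← h]; ring

end Pool.Agent.TH299.FB
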