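import Pool.Agent.TH299.FB.Sol

/-!
# `u` is of class `C^{1,1}` and solves `Δu = x χ_D`
-/

set_option autoImplicit false

namespace Pool.Agent.TH299.FB

open Set Filter Topology MeasureTheory Metric

/-- The complex part of the derivative of `wf`. -/
noncomputable def mV (z : ℂ) : ℂ :=
  (kap ^ 2 / 2 : ℝ) * (Complex.exp (2 * V z) * (2 * ((1 + 1 / V z)⁻¹ * (1 / z))))

/-- The derivative of `wf`. -/
noncomputable def dw (z : ℂ) : ℂ →L[ℝ] ℂ :=
  Complex.ofRealCLM.comp (z.re • Complex.reCLM) + (mV z) • (1 : ℂ →L[ℝ] ℂ)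

lemma dw_apply (z h : ℂ) : dw z h = ((z.re * h.re : ℝ) : ℂ) + mV z * h := rfl

lemma hasFDerivAt_wf {z : ℂ} (hz : z ∈ Complex.slitPlane) (h7 : ‖z‖ < 7) :
    HasFDerivAt wf (dw z) z := by
  have h1 : HasDerivAt (fun z => (kap ^ 2 / 2 : ℝ) * Complex.exp (2 * V z)) (mV z) z := by
    have h2 := (((hasDerivAt_V hz h7).const_mul (2 : ℂ)).cexp).const_mul ((kap ^ 2 / 2 : ℝ) : ℂ)
    exact h2
  have h3 : HasFDerivAt (fun z : ℂ => z.re ^ 2 / 2) (z.re • Complex.reCLM) z := by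
    have h4 := ((Complex.reCLM.hasFDerivAt (x := z)).pow 2).mul_const (1 / 2 : ℝ)
    refine (h4.congr_fderiv ?_).congr_of_eventuallyEq (Eventually.of_forall fun z => ?_)
    · ext h
      simp
      ring
    · simp
      ring
  have h5 : HasFDerivAt (fun z : ℂ => ((z.re ^ 2 / 2 : ℝ) : ℂ))
      (Complex.ofRealCLM.comp (z.re • Complex.reCLM)) z :=
    Complex.ofRealCLM.hasFDerivAt.comp z h3
  exact h5.add h1.complexToReal_fderiv

lemma one_add_V_ne (z : ℂ) : 1 + V z ≠ 0 := by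
  intro h
  have h1 := congrArg Complex.re h
  rw [Complex.add_re, Complex.one_re, Complex.zero_re] at h1
  have h2 : (V z).re ≤ -2 := V_mem z
  linarith

lemma V_ratio {z : ℂ} : (1 + 1 / V z)⁻¹ = V z / (1 + V z) := by
  have h1 := V_ne z
  have h2 : 1 + 1 / V z = (1 + V z) / V z := by field_simp; ring
  rw [h2, inv_div]

lemma norm_ratio_le {z : ℂ} : ‖(1 + 1 / V z)⁻¹‖ ≤ 2 := by
  have h1 : 2 ≤ ‖V z‖ := norm_P (V_mem z)
  have h2 : ‖1 / V z‖ ≤ 1 / 2 := by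
    rw [norm_div, norm_one]; exact one_div_le_one_div_of_le two_pos h1
  have h3 : 1 / 2 ≤ ‖1 + 1 / V z‖ := by
    have := norm_sub_norm_le (1 : ℂ) (-(1 / V z))
    rw [norm_neg, norm_one, sub_neg_eq_add] at this
    linarith
  rw [norm_inv]
  calc ‖1 + 1 / V z‖⁻¹ ≤ (1 / 2 : ℝ)⁻¹ := inv_anti₀ (by norm_num) h3
    _ = 2 := by norm_num

lemma norm_exp2 {z : ℂ} (hz : z ≠ 0) (h7 : ‖z‖ < 7) :
    kap ^ 2 * ‖Complex.exp (2 * V z)‖ ≤ 5 / 8 * ‖z‖ ^ 2 := by
  have h1 : 2 ≤ ‖V z‖ := norm_P (V_mem z)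
  have h2 : ‖Complex.exp (2 * V z)‖ = (‖z‖ / (Real.exp 4 * ‖V z‖)) ^ 2 := by
    rw [two_mul, Complex.exp_add, norm_mul, norm_exp_V hz h7, sq]
  have h4 := Real.exp_pos 4
  have hpi : Real.pi ^ 2 ≤ 10 := by
    have := Real.pi_lt_d4; have := Real.pi_pos; nlinarith
  have hz2 : 0 ≤ ‖z‖ ^ 2 := by positivity
  rw [h2, kap]
  have e : (Real.pi / 2 * Real.exp 4) ^ 2 * (‖z‖ / (Real.exp 4 * ‖V z‖)) ^ 2 =
      Real.pi ^ 2 / 4 * ‖z‖ ^ 2 * (1 / ‖V z‖) ^ 2 := by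
    field_simp
    norm_num
  rw [e]
  have h5 : (1 / ‖V z‖) ^ 2 ≤ 1 / 4 := by
    have h6 : 1 / ‖V z‖ ≤ 1 / 2 := one_div_le_one_div_of_le two_pos h1
    have h7 : 0 ≤ 1 / ‖V z‖ := by positivity
    nlinarith
  calc Real.pi ^ 2 / 4 * ‖z‖ ^ 2 * (1 / ‖V z‖) ^ 2 ≤ Real.pi ^ 2 / 4 * ‖z‖ ^ 2 * (1 / 4) :=
        mul_le_mul_of_nonneg_left h5 (by positivity)
    _ ≤ 10 / 4 * ‖z‖ ^ 2 * (1 / 4) := by gcongr
    _ = 5 / 8 * ‖z‖ ^ 2 := by ring

lemma norm_mV_le {z : ℂ} (hz : z ≠ 0) (h2 : ‖z‖ < 2) : ‖mV z‖ ≤ 5 / 2 := by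
  have h1 := norm_exp2 hz (by linarith)
  have h3 := norm_ratio_le (z := z)
  have hz0 : 0 < ‖z‖ := norm_pos_iff.2 hz
  have hk : 0 ≤ kap ^ 2 / 2 := by positivity
  unfold mV
  rw [norm_mul, norm_mul, norm_mul, norm_mul, Complex.norm_real, Real.norm_eq_abs,
    abs_of_nonneg hk, norm_div, norm_one, Complex.norm_ofNat]
  have e : kap ^ 2 / 2 * (‖Complex.exp (2 * V z)‖ * (2 * (‖(1 + 1 / V z)⁻¹‖ * (1 / ‖z‖)))) =
      (kap ^ 2 * ‖Complex.exp (2 * V z)‖) * ‖(1 + 1 / V z)⁻¹‖ / ‖z‖ := by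
    field_simp
  rw [e, div_le_iff₀ hz0]
  calc kap ^ 2 * ‖Complex.exp (2 * V z)‖ * ‖(1 + 1 / V z)⁻¹‖ ≤ (5 / 8 * ‖z‖ ^ 2) * 2 := by
        gcongr
    _ ≤ 5 / 2 * ‖z‖ := by nlinarith

lemma norm_dw_le {z : ℂ} (hz : z ≠ 0) (h2 : ‖z‖ < 2) : ‖dw z‖ ≤ 5 := by
  refine ContinuousLinearMap.opNorm_le_bound _ (by norm_num) fun h => ?_
  rw [dw_apply]
  refine (norm_add_le _ _).trans ?_
  rw [Complex.norm_real, Real.norm_eq_abs, abs_mul, norm_mul]
  have h3 := norm_mV_le hz h2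
  have h4 := Complex.abs_re_le_norm z
  have h5 := Complex.abs_re_le_norm h
  have h6 : |z.re| * |h.re| ≤ 2 * ‖h‖ := by gcongr; linarith
  have h7 : ‖mV z‖ * ‖h‖ ≤ 5 / 2 * ‖h‖ := by gcongr
  nlinarith [norm_nonneg h]

lemma norm_wf_le {z : ℂ} (hz : z ≠ 0) (h7 : ‖z‖ < 7) : ‖wf z‖ ≤ ‖z‖ ^ 2 := by
  have h1 := norm_exp2 hz h7
  have hk : 0 ≤ kap ^ 2 / 2 := by positivity
  unfold wf
  refine (norm_add_le _ _).trans ?_
  rw [norm_mul, Complex.norm_real, Complex.norm_real, Real.norm_eq_abs, Real.norm_eq_abs,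
    abs_of_nonneg hk, abs_of_nonneg (by positivity)]
  have h4 := Complex.abs_re_le_norm z
  have h5 : z.re ^ 2 ≤ ‖z‖ ^ 2 := by
    rw [← sq_abs]; gcongr
  nlinarith

lemma norm_Uf_le {z : ℂ} (hz : z ≠ 0) (h2 : ‖z‖ < 2) : ‖Uf z‖ ≤ 100 * ‖z‖ := by
  have h1 : 2 ≤ ‖V z‖ := norm_P (V_mem z)
  have h4 := Real.exp_pos 4
  have hpi := Real.pi_pos
  have hk := kap_pos
  have hz0 : 0 < ‖z‖ := norm_pos_iff.2 hz
  have e3 : ‖Complex.exp (3 * V z)‖ = (‖z‖ / (Real.exp 4 * ‖V z‖)) ^ 3 := by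
    have : (3 : ℂ) * V z = V z + V z + V z := by ring
    rw [this, Complex.exp_add, Complex.exp_add, norm_mul, norm_mul, norm_exp_V hz (by linarith)]
    ring
  have e4 : ‖3 * V z + 2‖ ≤ 4 * ‖V z‖ := by
    refine (norm_add_le _ _).trans ?_
    rw [norm_mul, Complex.norm_ofNat, Complex.norm_ofNat]; linarith
  have h5 : |kap ^ 3 / (9 * Real.pi) * (Complex.exp (3 * V z) * (3 * V z + 2)).re| ≤
      kap ^ 3 / (9 * Real.pi) * ((‖z‖ / (Real.exp 4 * ‖V z‖)) ^ 3 * (4 * ‖V z‖)) := by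
    rw [abs_mul, abs_of_pos (by positivity)]
    refine mul_le_mul_of_nonneg_left ?_ (by positivity)
    refine (Complex.abs_re_le_norm _).trans ?_
    rw [norm_mul, e3]
    exact mul_le_mul_of_nonneg_left e4 (by positivity)
  have h6 : kap ^ 3 / (9 * Real.pi) * ((‖z‖ / (Real.exp 4 * ‖V z‖)) ^ 3 * (4 * ‖V z‖)) =
      Real.pi ^ 2 / 18 * ‖z‖ ^ 3 * (1 / ‖V z‖) ^ 2 := by
    unfold kap
    field_simp
    ring
  have h7 : (1 / ‖V z‖) ^ 2 ≤ 1 := by
    have h6 : 1 / ‖V z‖ ≤ 1 / 2 := one_div_le_one_div_of_le two_pos h1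
    have h7 : 0 ≤ 1 / ‖V z‖ := by positivity
    nlinarith
  have h8 : Real.pi ^ 2 / 18 ≤ 1 := by
    have := Real.pi_lt_d4; nlinarith
  have h9 : ‖z‖ ^ 3 ≤ 4 * ‖z‖ := by
    have h91 : ‖z‖ ^ 2 ≤ 4 := by nlinarith
    nlinarith
  have h10 : Real.pi ^ 2 / 18 * ‖z‖ ^ 3 * (1 / ‖V z‖) ^ 2 ≤ 1 * (4 * ‖z‖) * 1 := by gcongr
  have h11 : |z.re ^ 3 / 6| ≤ 4 * ‖z‖ := by
    rw [abs_div, abs_pow, abs_of_pos (by norm_num : (0 : ℝ) < 6)]
    have h12 := Complex.abs_re_le_norm z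
    have h13 : |z.re| ^ 3 ≤ ‖z‖ ^ 3 := by gcongr
    linarith
  unfold Uf
  rw [Real.norm_eq_abs]
  refine (abs_sub _ _).trans ?_
  rw [h6] at h5
  linarith

lemma hasFDerivAt_Uf {z : ℂ} (hz : z ∈ Complex.slitPlane) (h7 : ‖z‖ < 7) :
    HasFDerivAt Uf (T (wf z)) z := by
  have hz0 : z ≠ 0 := Complex.slitPlane_ne_zero hz
  have hpi := Real.pi_pos
  set q : ℂ := Complex.exp (3 * V z) * (3 * ((1 + 1 / V z)⁻¹ * (1 / z))) * (3 * V z + 2) +
    Complex.exp (3 * V z) * (3 * ((1 + 1 / V z)⁻¹ * (1 / z))) with hq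
  have h1 : HasDerivAt (fun z => Complex.exp (3 * V z) * (3 * V z + 2)) q z := by
    have h2 := (hasDerivAt_V hz h7).const_mul (3 : ℂ)
    exact h2.cexp.mul (h2.add_const 2)
  have h3 : HasFDerivAt (fun z : ℂ => z.re ^ 3 / 6) ((z.re ^ 2 / 2) • Complex.reCLM) z := by
    have h4 := ((Complex.reCLM.hasFDerivAt (x := z)).pow 3).mul_const (1 / 6 : ℝ)
    refine (h4.congr_fderiv ?_).congr_of_eventuallyEq (Eventually.of_forall fun z => ?_)
    · ext h
      simp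
      ring
    · simp
      ring
  have h5 : HasFDerivAt (fun z => (Complex.exp (3 * V z) * (3 * V z + 2)).re)
      (Complex.reCLM.comp (q • (1 : ℂ →L[ℝ] ℂ))) z :=
    Complex.reCLM.hasFDerivAt.comp z h1.complexToReal_fderiv
  have h6 := h3.sub (h5.const_mul (kap ^ 3 / (9 * Real.pi)))
  refine h6.congr_fderiv ?_
  -- the identity of the coefficients
  have hV := V_param hz0 h7
  have hV0 := V_ne z
  have hV1 : 1 + V z ≠ 0 := one_add_V_ne z
  have hq2 : q = -9 * Complex.exp (2 * V z) / (Real.exp 4 : ℂ) := by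
    have he3 : Complex.exp (3 * V z) = Complex.exp (2 * V z) * Complex.exp (V z) := by
      rw [← Complex.exp_add]; congr 1; ring
    have h4 : (Real.exp 4 : ℂ) ≠ 0 := by exact_mod_cast (Real.exp_pos 4).ne'
    have hE : Complex.exp (V z) ≠ 0 := Complex.exp_ne_zero _
    have hr : q = 9 * Complex.exp (2 * V z) * Complex.exp (V z) * V z / z := by
      rw [hq, V_ratio, he3]
      field_simp
      ring
    rw [hr, div_eq_div_iff hz0 h4]
    linear_combination (-9 * Complex.exp (2 * V z)) * hV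
  have hkey : (kap ^ 3 / (9 * Real.pi) : ℝ) * q =
      -(((kap ^ 2 / 2 : ℝ) : ℂ) * Complex.exp (2 * V z)) := by
    rw [hq2]
    have h4 : (Real.exp 4 : ℂ) ≠ 0 := by exact_mod_cast (Real.exp_pos 4).ne'
    have hp : (Real.pi : ℂ) ≠ 0 := by exact_mod_cast hpi.ne'
    have hk : (kap : ℂ) = Real.pi / 2 * Real.exp 4 := by unfold kap; push_cast; rfl
    push_cast
    have e : (kap : ℂ) ^ 3 = (kap : ℂ) ^ 2 * (Real.pi / 2 * Real.exp 4) := by rw [← hk]; ring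
    push_cast at e
    rw [e]
    push_cast at h4
    field_simp
  ext h
  have e1 : (T (wf z)) h = (z.re ^ 2 / 2) * h.re +
      (((kap ^ 2 / 2 : ℝ) : ℂ) * Complex.exp (2 * V z) * h).re := by
    rw [T_apply, wf, add_mul, Complex.add_re, Complex.re_ofReal_mul]
  have e2 : (((kap ^ 2 / 2 : ℝ) : ℂ) * Complex.exp (2 * V z) * h).re =
      -(kap ^ 3 / (9 * Real.pi) * (q * h).re) := by
    have : ((kap ^ 2 / 2 : ℝ) : ℂ) * Complex.exp (2 * V z) = -((kap ^ 3 / (9 * Real.pi) : ℝ) * q) := by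
      rw [hkey]; ring
    rw [this, neg_mul, Complex.neg_re, mul_assoc, Complex.re_ofReal_mul]
  rw [e1, e2]
  rfl

/-! ### Gluing -/

lemma ev_mem {z : ℂ} (hz : z ∈ D) : ∀ᶠ y in 𝓝 z, y ∈ D := isOpen_D.mem_nhds hz

/-- The global gradient. -/
noncomputable def w : ℂ → ℂ := D.indicator wf

/-- The global solution. -/
noncomputable def u : ℂ → ℝ := D.indicator Uf

lemma tendsto_indicator {E : Type*} [TopologicalSpace E] [Zero E] {f : ℂ → E}
    {x : ℂ} (hx : x ∉ D) (h : Tendsto f (𝓝[D] x) (𝓝 0)) : ContinuousAt (D.indicator f) x := by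
  rw [ContinuousAt, indicator_of_notMem hx, ← nhdsWithin_univ, ← union_compl_self D,
    nhdsWithin_union, tendsto_sup]
  constructor
  · refine h.congr' ?_
    filter_upwards [self_mem_nhdsWithin] with y hy
    rw [indicator_of_mem hy]
  · refine tendsto_const_nhds.congr' ?_
    filter_upwards [self_mem_nhdsWithin] with y hy
    rw [indicator_of_notMem hy]

lemma tendsto_zero_of_bound {E : Type*} [NormedAddCommGroup E] {f : ℂ → E} {C : ℝ}
    (h : ∀ z : ℂ, z ≠ 0 → ‖z‖ < 2 → ‖f z‖ ≤ C * ‖z‖) : Tendsto f (𝓝[D] 0) (𝓝 0) := by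
  have h1 : Tendsto (fun z : ℂ => C * ‖z‖) (𝓝[D] 0) (𝓝 0) := by
    have : Tendsto (fun z : ℂ => C * ‖z‖) (𝓝 0) (𝓝 (C * ‖(0 : ℂ)‖)) :=
      (continuous_const.mul continuous_norm).tendsto 0
    rw [norm_zero, mul_zero] at this
    exact this.mono_left nhdsWithin_le_nhds
  refine squeeze_zero_norm' ?_ h1
  filter_upwards [self_mem_nhdsWithin, mem_nhdsWithin_of_mem_nhds (ball_mem_nhds (0 : ℂ) two_pos)]
    with z hz hz2
  refine h z ?_ (by simpa using hz2)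
  rintro rfl
  exact zero_notMem hz

lemma cont_glue {E : Type*} [NormedAddCommGroup E] {f : ℂ → E} {C : ℝ}
    (hc : ∀ z ∈ Complex.slitPlane, ‖z‖ < 7 → ContinuousAt f z)
    (h0 : ∀ z : ℂ, z.re = g z.im → z ≠ 0 → ‖z‖ < 3 → f z = 0)
    (hb : ∀ z : ℂ, z ≠ 0 → ‖z‖ < 2 → ‖f z‖ ≤ C * ‖z‖) :
    ContinuousOn (D.indicator f) (ball 0 2) := by
  intro x hx
  have hx2 : ‖x‖ < 2 := by simpa using hx
  refine ContinuousAt.continuousWithinAt ?_
  by_cases hxD : x ∈ D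
  · refine (hc x (slit_of_mem hxD) (by linarith)).congr ?_
    filter_upwards [ev_mem hxD] with y hy
    rw [indicator_of_mem hy]
  refine tendsto_indicator hxD ?_
  by_cases hx0 : x = 0
  · rw [hx0]; exact tendsto_zero_of_bound hb
  by_cases hxe : x.re = g x.im
  · have hpos : 0 < x.re := by
      rcases (g_nonneg x.im).lt_or_eq with h | h
      · rw [hxe]; exact h
      · exfalso
        have h3 : |x.im| < 3 := lt_of_le_of_lt (Complex.abs_im_le_norm x) (by linarith)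
        rw [g_eq' h3.le] at h
        have him : x.im ≠ 0 := by
          intro him
          apply hx0
          apply Complex.ext
          · rw [hxe, him, g_zero, Complex.zero_re]
          · rw [him, Complex.zero_im]
        rw [G1_eq_exp (abs_pos.2 him) (by linarith)] at h
        have := Real.pi_pos
        have : 0 < Real.pi / 2 * Real.exp (4 + av |x.im|) := by positivity
        linarith
    have h1 := hc x (Or.inl hpos) (by linarith)
    rw [ContinuousAt, h0 x hxe hx0 (by linarith)] at h1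
    exact h1.mono_left nhdsWithin_le_nhds
  · -- outside the closure
    have h1 : x.re < g x.im := lt_of_le_of_ne (not_lt.1 hxD) hxe
    have ho : IsOpen {z : ℂ | z.re < g z.im} :=
      isOpen_lt Complex.continuous_re (g_continuous.comp Complex.continuous_im)
    have h2 : 𝓝[D] x = ⊥ := by
      have h3 : ∀ᶠ y in 𝓝[D] x, False := by
        filter_upwards [self_mem_nhdsWithin, mem_nhdsWithin_of_mem_nhds (ho.mem_nhds h1)] with
          y hy1 hy2
        have hy1' : g y.im < y.re := hy1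
        have hy2' : y.re < g y.im := hy2
        linarith
      exact Filter.eventually_false_iff_eq_bot.1 h3
    rw [h2]
    exact tendsto_bot

end Pool.Agent.TH299.FB
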