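import Pool.Agent.TH299.FB.Graph
import Pool.Agent.TH299.FB.Glue

/-!
# The solution `u` and its gradient
-/

set_option autoImplicit false

namespace Pool.Agent.TH299.FB

open Set Filter Topology MeasureTheory

/-- `κ = (π/2) e⁴`. -/
noncomputable def kap : ℝ := Real.pi / 2 * Real.exp 4

lemma kap_pos : 0 < kap := by unfold kap; have := Real.pi_pos; positivity

/-- The gradient (conjugated): `w = x²/2 + (κ²/2) e^{2v}`. -/
noncomputable def wf (z : ℂ) : ℂ :=
  ((z.re ^ 2 / 2 : ℝ) : ℂ) + (kap ^ 2 / 2 : ℝ) * Complex.exp (2 * V z)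

/-- The solution: `U = x³/6 - κ³/(9π) Re (e^{3v} (3v+2))`. -/
noncomputable def Uf (z : ℂ) : ℝ :=
  z.re ^ 3 / 6 - kap ^ 3 / (9 * Real.pi) * (Complex.exp (3 * V z) * (3 * V z + 2)).re

/-- The domain. -/
def D : Set ℂ := {z | g z.im < z.re}

lemma isOpen_D : IsOpen D := isOpen_lt (g_continuous.comp Complex.continuous_im) Complex.continuous_re

lemma re_pos_of_mem {z : ℂ} (hz : z ∈ D) : 0 < z.re := lt_of_le_of_lt (g_nonneg _) hz

lemma slit_of_mem {z : ℂ} (hz : z ∈ D) : z ∈ Complex.slitPlane := Or.inl (re_pos_of_mem hz)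

lemma zero_notMem : (0 : ℂ) ∉ D := by
  intro h
  have := re_pos_of_mem h
  simp at this

lemma frontier_D : frontier D = {z | z.re = g z.im} := by
  have hcl : closure D = {z | g z.im ≤ z.re} := by
    apply Subset.antisymm
    · refine closure_minimal (fun z (hz : g z.im < z.re) => show g z.im ≤ z.re from hz.le) ?_
      exact isClosed_le (g_continuous.comp Complex.continuous_im) Complex.continuous_re
    · intro z hz
      have h1 : Tendsto (fun n : ℕ => z + ((1 / ((n : ℝ) + 1) : ℝ) : ℂ)) atTop (𝓝 (z + ((0 : ℝ) : ℂ))) := by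
        refine tendsto_const_nhds.add ?_
        exact (Complex.continuous_ofReal.tendsto _).comp tendsto_one_div_add_atTop_nhds_zero_nat
      rw [Complex.ofReal_zero, add_zero] at h1
      refine mem_closure_of_tendsto h1 (Eventually.of_forall fun n => ?_)
      show g (z + ((1 / ((n : ℝ) + 1) : ℝ) : ℂ)).im < (z + ((1 / ((n : ℝ) + 1) : ℝ) : ℂ)).re
      rw [Complex.add_im, Complex.ofReal_im, add_zero, Complex.add_re, Complex.ofReal_re]
      have h2 : (0 : ℝ) < 1 / ((n : ℝ) + 1) := by positivity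
      have h3 : g z.im ≤ z.re := hz
      linarith
  rw [frontier, isOpen_D.interior_eq, hcl]
  ext z
  simp only [D, Set.mem_sdiff, Set.mem_ofPred_eq, not_lt]
  exact ⟨fun h => le_antisymm h.2 h.1, fun h => ⟨h.ge, h.le⟩⟩

lemma zero_mem_frontier : (0 : ℂ) ∈ frontier D := by
  rw [frontier_D]
  simp [g_zero]

/-! ### The identities on the curve -/

lemma exp_half {a s : ℝ} (hs : s = 1 ∨ s = -1) :
    Complex.exp ((a : ℂ) + s * (Real.pi / 2) * Complex.I) = (Real.exp a : ℂ) * (s * Complex.I) := by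
  rw [Complex.exp_add, ← Complex.ofReal_exp]
  congr 1
  rcases hs with rfl | rfl
  · rw [Complex.ofReal_one, one_mul, one_mul, Complex.exp_pi_div_two_mul_I]
  · have : (((-1 : ℝ) : ℂ)) * (Real.pi / 2) * Complex.I = -(Real.pi / 2 * Complex.I) := by
      push_cast; ring
    rw [this, Complex.exp_neg, Complex.exp_pi_div_two_mul_I, Complex.inv_I]
    push_cast; ring

lemma V_curve {a s : ℝ} (hs : s = 1 ∨ s = -1) (ha : a ≤ -2) {z : ℂ}
    (hre : z.re = Real.pi / 2 * Real.exp (4 + a)) (him : z.im = s * (-a * Real.exp (4 + a)))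
    (h7 : ‖z‖ < 7) : V z = (a : ℂ) + s * (Real.pi / 2) * Complex.I := by
  have hpi := Real.pi_pos
  set v₀ : ℂ := (a : ℂ) + s * (Real.pi / 2) * Complex.I with hv₀
  have hs2 : s ^ 2 = 1 := by rcases hs with rfl | rfl <;> norm_num
  have hsabs : |s| = 1 := by rcases hs with rfl | rfl <;> norm_num
  have hre0 : v₀.re = a := by simp [hv₀]
  have him0 : v₀.im = s * (Real.pi / 2) := by simp [hv₀]
  have hP : v₀ ∈ P := by show v₀.re ≤ -2; rw [hre0]; exact ha
  have hz0 : z ≠ 0 := by
    intro h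
    rw [h, Complex.zero_re] at hre
    have := Real.exp_pos (4 + a)
    have : 0 < Real.pi / 2 * Real.exp (4 + a) := by positivity
    linarith
  have hv0 : v₀ ≠ 0 := by intro h; rw [h, Complex.zero_re] at hre0; linarith
  have hexp : Complex.exp (v₀ + Complex.log (-v₀) + 4) = z := by
    rw [Complex.exp_add, Complex.exp_add, Complex.exp_log (neg_ne_zero.2 hv0), hv₀, exp_half hs]
    have e4 : Complex.exp 4 = (Real.exp 4 : ℂ) := by rw [Complex.ofReal_exp]; norm_num
    rw [e4]
    have hA : Real.exp (4 + a) = Real.exp 4 * Real.exp a := Real.exp_add _ _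
    rw [hA] at hre him
    clear_value v₀
    clear hv₀ hP hA e4
    generalize Real.exp a = A at *
    generalize Real.exp 4 = B at *
    apply Complex.ext
    · rw [hre]
      simp
      linear_combination (Real.pi / 2 * A * B) * hs2
    · rw [him]
      simp
      ring
  refine V_unique hz0 h7 hP ?_
  have harg : |(Complex.log (-v₀)).im| < Real.pi / 2 := by
    rw [Complex.log_im, Complex.abs_arg_lt_pi_div_two_iff]
    left
    rw [Complex.neg_re, hre0]; linarith
  have him1 : (v₀ + Complex.log (-v₀) + 4).im = s * (Real.pi / 2) + (Complex.log (-v₀)).im := by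
    rw [Complex.add_im, Complex.add_im, him0]; simp
  have habs : |s * (Real.pi / 2) + (Complex.log (-v₀)).im| < Real.pi := by
    refine lt_of_le_of_lt (abs_add_le _ _) ?_
    rw [abs_mul, hsabs, one_mul, abs_of_pos (by positivity : 0 < Real.pi / 2)]
    linarith
  have h2 := Complex.log_exp (x := v₀ + Complex.log (-v₀) + 4)
    (by rw [him1]; exact (abs_lt.1 habs).1) (by rw [him1]; exact (abs_lt.1 habs).2.le)
  rw [hexp] at h2
  rw [h2]; ring

lemma curve_data {z : ℂ} (hz : z.re = g z.im) (h0 : z ≠ 0) (h3 : ‖z‖ < 3) :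
    ∃ a s : ℝ, (s = 1 ∨ s = -1) ∧ a ≤ -2 ∧ z.re = Real.pi / 2 * Real.exp (4 + a) ∧
      V z = (a : ℂ) + s * (Real.pi / 2) * Complex.I := by
  have him : z.im ≠ 0 := by
    intro h
    apply h0
    apply Complex.ext
    · rw [hz, h, g_zero, Complex.zero_re]
    · rw [h, Complex.zero_im]
  have hpos : 0 < |z.im| := abs_pos.2 him
  have hlt : |z.im| < 3 := lt_of_le_of_lt (Complex.abs_im_le_norm z) h3
  rw [g_eq' hlt.le] at hz
  have hre := hz
  rw [G1_eq_exp hpos (by linarith)] at hre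
  have hexp := av_exp hpos (by linarith)
  have key : ∀ s : ℝ, (s = 1 ∨ s = -1) → z.im = s * |z.im| → ∃ a s : ℝ, (s = 1 ∨ s = -1) ∧
      a ≤ -2 ∧ z.re = Real.pi / 2 * Real.exp (4 + a) ∧
      V z = (a : ℂ) + s * (Real.pi / 2) * Complex.I := by
    intro s hs hsz
    refine ⟨av |z.im|, s, hs, av_le _, hre, V_curve hs (av_le _) hre ?_ (by linarith)⟩
    rw [hexp]; exact hsz
  rcases lt_or_gt_of_ne him with h | h
  · exact key (-1) (Or.inr rfl) (by rw [abs_of_neg h]; ring)
  · exact key 1 (Or.inl rfl) (by rw [abs_of_pos h]; ring)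

lemma wf_curve {z : ℂ} (hz : z.re = g z.im) (h0 : z ≠ 0) (h3 : ‖z‖ < 3) : wf z = 0 := by
  obtain ⟨a, s, hs, -, hre, hV⟩ := curve_data hz h0 h3
  have hs2 : ((s : ℂ)) ^ 2 = 1 := by rcases hs with rfl | rfl <;> norm_num
  have h1 : Complex.exp (2 * V z) = -((Real.exp a : ℂ)) ^ 2 := by
    rw [hV, two_mul, Complex.exp_add, exp_half hs]
    have : (Real.exp a : ℂ) * (s * Complex.I) * ((Real.exp a : ℂ) * (s * Complex.I)) =
      (Real.exp a : ℂ) ^ 2 * ((s : ℂ) ^ 2) * (Complex.I ^ 2) := by ring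
    rw [this, hs2, Complex.I_sq]; ring
  unfold wf
  rw [h1, hre, kap, Real.exp_add]
  push_cast
  ring

lemma Uf_curve {z : ℂ} (hz : z.re = g z.im) (h0 : z ≠ 0) (h3 : ‖z‖ < 3) : Uf z = 0 := by
  obtain ⟨a, s, hs, -, hre, hV⟩ := curve_data hz h0 h3
  have hpi := Real.pi_pos
  have hs2 : ((s : ℂ)) ^ 2 = 1 := by rcases hs with rfl | rfl <;> norm_num
  have hs2' : s ^ 2 = 1 := by rcases hs with rfl | rfl <;> norm_num
  have h1 : Complex.exp (3 * V z) = -((Real.exp a : ℂ)) ^ 3 * (s * Complex.I) := by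
    have e3 : (3 : ℂ) * V z = V z + V z + V z := by ring
    rw [hV] at e3 ⊢
    rw [e3, Complex.exp_add, Complex.exp_add, exp_half hs]
    have : (Real.exp a : ℂ) * (s * Complex.I) * ((Real.exp a : ℂ) * (s * Complex.I)) *
      ((Real.exp a : ℂ) * (s * Complex.I)) =
      (Real.exp a : ℂ) ^ 3 * ((s : ℂ) ^ 2) * (Complex.I ^ 2) * (s * Complex.I) := by ring
    rw [this, hs2, Complex.I_sq]; ring
  have h2 : (Complex.exp (3 * V z) * (3 * V z + 2)).re = Real.exp a ^ 3 * (3 * Real.pi / 2) := by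
    rw [h1, hV]
    have e : -((Real.exp a : ℂ)) ^ 3 * (s * Complex.I) * (3 * ((a : ℂ) + s * (Real.pi / 2) * Complex.I) + 2)
        = ((Real.exp a ^ 3 * (3 * Real.pi / 2) : ℝ) : ℂ) * (-((s : ℂ) ^ 2 * Complex.I ^ 2)) +
          ((-(Real.exp a ^ 3) * s * (3 * a + 2) : ℝ) : ℂ) * Complex.I := by
      push_cast; ring
    rw [e, hs2, Complex.I_sq, Complex.add_re, Complex.re_ofReal_mul, Complex.re_ofReal_mul]
    simp only [Complex.I_re, mul_zero, add_zero]
    norm_num
  unfold Uf
  rw [h2, hre, kap, Real.exp_add]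
  field_simp
  ring

end Pool.Agent.TH299.FB
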